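import Mathlib

namespace Pool.Agent.Results.MP_4402c4_co.Defect

open List Filter Topology

variable {A : Type}

/-- the factor of length `n` of `u` at position `i` -/
def blk (u : ℕ → A) (i n : ℕ) : List A := (range n).map fun k => u (i + k)

def Fac (u : ℕ → A) : Set (List A) := {w | ∃ i n, w = blk u i n}

noncomputable def C (u : ℕ → A) (n : ℕ) : ℤ := {w ∈ Fac u | w.length = n}.ncard

noncomputable def P (u : ℕ → A) (n : ℕ) : ℤ := {w ∈ Fac u | w.length = n ∧ w.reverse = w}.ncard

noncomputable def T (u : ℕ → A) (n : ℕ) : ℤ := C u (n + 1) - C u n + 2 - P u (n + 1) - P u n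

/-- defect of a finite word -/
noncomputable def D (w : List A) : ℤ := w.length + 1 - {v | v <:+: w ∧ v.reverse = v}.ncard

def c (i : ℕ) : Fin 10 := Fin.ofNat 10 i

def B (K : ℕ) : ℕ → ℕ → List (Fin 10)
  | _, 0 => []
  | i, d + 1 => replicate (K * 2 ^ i) (c i) ++ B K (i + 1) d

theorem Bl (K : ℕ) : ∀ d i, (B K i d).length + K * 2 ^ i = K * 2 ^ (i + d)
  | 0, i => by simp [B]
  | d + 1, i => by
    have := Bl K d (i + 1)
    rw [show i + 1 + d = i + (d + 1) by omega, pow_succ, ← mul_assoc] at this
    simp only [B, length_append, length_replicate]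
    omega

theorem Ba (K e : ℕ) : ∀ d i, B K i (d + e) = B K i d ++ B K (i + d) e
  | 0, i => by simp [B]
  | d + 1, i => by
    rw [show d + 1 + e = d + e + 1 by omega, B, B, Ba K e d, append_assoc, add_assoc, add_comm 1]

def U : ℕ → List (Fin 10)
  | 0 => []
  | j + 1 => U j ++ (B ((U j).length + 2) 0 10 ++ U j)

theorem len (j : ℕ) : (U (j + 1)).length = 1025 * (U j).length + 2046 := by
  have := Bl ((U j).length + 2) 10 0
  simp only [U, length_append]
  omega

theorem lt (j : ℕ) : j ≤ (U j).length := by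
  induction j with
  | zero => simp
  | succ j ih => rw [len]; omega

theorem pre {i j : ℕ} (h : i ≤ j) : U i <+: U j := by
  induction h with
  | refl => rfl
  | step _ ih => exact ih.trans (prefix_append _ _)

def u (n : ℕ) : Fin 10 := (U (n + 1)).getD n 0

theorem ue (j n : ℕ) (h : n < (U j).length) : u n = (U j)[n] := by
  have l : n < (U (n + 1)).length := lt (n + 1)
  rw [u, getD_eq_getElem _ _ l]
  rcases le_total j (n + 1) with c | c
  · exact ((pre c).getElem h).symm
  · exact (pre c).getElem l

theorem be (j i n : ℕ) (h : i + n ≤ (U j).length) : blk u i n = ((U j).drop i).take n := by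
  refine ext_getElem (by simp [blk]; omega) fun k h1 h2 => ?_
  have : k < n := by simpa [blk] using h1
  simp [blk, ue j (i + k) (by omega)]

theorem fac (w : List (Fin 10)) : w ∈ Fac u ↔ ∃ j, w <:+: U j := by
  constructor
  · rintro ⟨i, n, rfl⟩
    exact ⟨_, be _ i n (lt _) ▸ (take_prefix _ _).isInfix.trans (drop_suffix _ _).isInfix⟩
  · rintro ⟨j, s, t, h⟩
    refine ⟨s.length, w.length, ?_⟩
    rw [be j _ _ (by simp [← h]), ← h]
    simp

theorem split {w x y : List (Fin 10)} {s : Fin 10} {k : ℕ} (hk : w.length ≤ k)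
    (h : w <:+: x ++ (replicate k s ++ y)) :
    w <:+: x ++ replicate w.length s ∨ w <:+: replicate w.length s ++ y := by
  rcases infix_append_iff.1 h with h | h | ⟨p, q, e, h1, h2⟩
  · exact .inl (h.trans (prefix_append _ _).isInfix)
  · rcases infix_append_iff.1 h with h | h | ⟨p, q, e, h1, h2⟩
    · rw [eq_replicate_of_mem fun b hb => eq_of_mem_replicate (h.mem hb)]
      exact .inr (by simpa using (prefix_append _ _).isInfix)
    · exact .inr (h.trans (suffix_append _ _).isInfix)
    · have : p <:+ replicate w.length s := by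
        rw [eq_replicate_of_mem fun b hb => eq_of_mem_replicate (h1.mem hb)]
        exact suffix_replicate_iff.2 (by simp [e])
      exact .inr (infix_append_iff.2 (.inr (.inr ⟨p, q, e, this, h2⟩)))
  · have l : q.length ≤ w.length := by simp [e]
    have : q <+: replicate k s := prefix_of_prefix_length_le h2 (prefix_append _ _) (by simp; omega)
    have : q <+: replicate w.length s := by
      rw [eq_replicate_of_mem fun b hb => eq_of_mem_replicate (this.mem hb)]
      exact prefix_replicate_iff.2 (by simpa)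
    exact .inl (infix_append_iff.2 (.inr (.inr ⟨p, q, e, h1, this⟩)))

def Two (w : List (Fin 10)) : Prop :=
  ∃ a < 10, w <:+: replicate w.length (c a) ++ replicate w.length (c (a + 1))

theorem ch {w y : List (Fin 10)} {K : ℕ} : ∀ d i, i + d < 10 → w.length ≤ K * 2 ^ i →
    w <:+: replicate w.length (c i) ++ (B K (i + 1) d ++ y) →
    Two w ∨ w <:+: replicate w.length (c (i + d)) ++ y
  | 0, _, _, _, h => .inr h
  | d + 1, i, h1, h2, h => by
    have l : w.length ≤ K * 2 ^ (i + 1) := by rw [pow_succ, ← mul_assoc]; omega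
    rw [B, append_assoc] at h
    rcases split l h with h | h
    · exact .inl ⟨i, by omega, h⟩
    · simpa only [add_assoc, add_comm 1] using ch d (i + 1) (by omega) l h

theorem win (j : ℕ) (w : List (Fin 10)) (hw : w.length ≤ (U j).length + 2) (i : ℕ) (hi : j ≤ i)
    (h : w <:+: replicate w.length (c 9) ++ U i ++ replicate w.length (c 0)) :
    w <:+: replicate w.length (c 9) ++ U j ++ replicate w.length (c 0) ∨ Two w := by
  induction hi with
  | refl => exact .inl h
  | @step i hi ih =>
    have l : w.length ≤ ((U i).length + 2) * 2 ^ 0 := by have := (pre hi).length_le; omega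
    simp only [U, append_assoc] at h
    rw [← append_assoc, B, append_assoc (replicate _ (c 0))] at h
    rcases split l h with h | h
    · exact ih h
    rcases ch 9 0 (by omega) l h with h | h
    · exact .inr h
    · exact ih (by rwa [append_assoc])

theorem cnt (l : List (Fin 10)) (n : ℕ) : ∃ s : Finset (List (Fin 10)), s.card ≤ l.length - n + 1 ∧
    ∀ w, w <:+: l → w.length = n → w ∈ s := by
  refine ⟨(Finset.range (l.length - n + 1)).image fun i => (l.drop i).take n,
    Finset.card_image_le.trans (by simp), ?_⟩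
  rintro w ⟨s, t, rfl⟩ rfl
  exact Finset.mem_image.2 ⟨s.length, by simp; omega, by simp⟩

theorem cov (N : ℕ) (hN : 3 ≤ N) : ∃ L M : List (Fin 10), L.length ≤ 5 * N ∧ M.length ≤ 3 * N ∧
    ∀ w ∈ Fac u, w.length = N → w <:+: L ∨ w <:+: M ∨ Two w := by
  have ex : ∃ j, N ≤ (U j).length + 2 := ⟨N, by have := lt N; omega⟩
  obtain ⟨j, hj⟩ : ∃ j, Nat.find ex = j + 1 := Nat.exists_eq_add_one_of_ne_zero fun h => by
    have := Nat.find_spec ex
    simp [h, U] at this
    omega
  have h1 := Nat.find_spec ex
  have h2 := Nat.find_min ex (show j < _ by omega)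
  rw [hj] at h1
  have k : ∀ w ∈ Fac u, w.length = N →
      w <:+: replicate w.length (c 9) ++ U (j + 1) ++ replicate w.length (c 0) ∨ Two w := by
    rintro w hw rfl
    obtain ⟨i, hi⟩ := (fac w).1 hw
    exact win _ w h1 (i + j + 1) (by omega) ((hi.trans (pre (by omega)).isInfix).trans ⟨_, _, rfl⟩)
  by_cases c9 : N ≤ ((U j).length + 2) * 2 ^ 9
  · have ex' : ∃ i, N ≤ ((U j).length + 2) * 2 ^ i := ⟨9, c9⟩
    have i9 := Nat.find_min' ex' c9
    obtain ⟨i, hi⟩ : ∃ j, Nat.find ex' = j + 1 := Nat.exists_eq_add_one_of_ne_zero fun h => by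
      have := Nat.find_spec ex'
      rw [h] at this
      omega
    have h3 := Nat.find_spec ex'
    have h4 := Nat.find_min ex' (show i < _ by omega)
    rw [hi] at h3 i9
    have := Bl ((U j).length + 2) (i + 1) 0
    rw [zero_add, pow_succ _ i, ← mul_assoc] at this
    refine ⟨replicate N (c 9) ++ U j ++ B ((U j).length + 2) 0 (i + 1) ++ replicate N (c (i + 1)),
      replicate N (c 9) ++ (U j ++ replicate N (c 0)), by simp; omega, by simp; omega, ?_⟩
    rintro w hw rfl
    rcases k w hw rfl with h | h
    · have e := Ba ((U j).length + 2) (8 - i + 1) (i + 1) 0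
      rw [show (i + 1) + (8 - i + 1) = 10 by omega, zero_add, B.eq_2 _ (i + 1)] at e
      rw [U, e] at h
      simp only [append_assoc] at h
      rw [← append_assoc, ← append_assoc] at h
      rcases split h3 h with h | h
      · exact .inl h
      · have := ch _ _ (by omega) h3 h
        rw [show i + 1 + (8 - i) = 9 by omega] at this
        exact .inr this.symm
    · exact .inr (.inr h)
  · refine ⟨replicate N (c 9) ++ U (j + 1) ++ replicate N (c 0), [], by simp [len]; omega, by simp, ?_⟩
    rintro w hw rfl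
    exact (k w hw rfl).imp_right .inr

theorem Cle (N : ℕ) (hN : 3 ≤ N) : C u N ≤ 16 * N + 12 := by
  obtain ⟨L, M, hL, hM, h⟩ := cov N hN
  obtain ⟨s1, a1, b1⟩ := cnt L N
  obtain ⟨s2, a2, b2⟩ := cnt M N
  choose s3 a3 b3 using fun a => cnt (replicate N (c a) ++ replicate N (c (a + 1))) N
  have : {w ∈ Fac u | w.length = N} ⊆ (s1 ∪ (s2 ∪ (Finset.range 10).biUnion s3) : Finset _) := by
    rintro w ⟨hw, rfl⟩
    simp only [Finset.mem_coe, Finset.mem_union, Finset.mem_biUnion, Finset.mem_range]
    exact (h w hw rfl).imp (b1 w · rfl) (.imp (b2 w · rfl) fun ⟨a, k, l⟩ => ⟨a, k, b3 a w l rfl⟩)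
  have := Set.ncard_le_ncard this (Finset.finite_toSet _)
  rw [Set.ncard_coe_finset] at this
  have := Finset.card_union_le s1 (s2 ∪ (Finset.range 10).biUnion s3)
  have := Finset.card_union_le s2 ((Finset.range 10).biUnion s3)
  have := Finset.card_biUnion_le_card_mul (Finset.range 10) s3 (N + 1) fun a _ => by simpa using a3 a
  rw [Finset.card_range] at this
  rw [C]
  omega

theorem rep (n : ℕ) (s : Fin 10) : replicate n s ∈ Fac u := by
  have : replicate n s <:+: replicate (((U n).length + 2) * 2 ^ s.1) s :=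
    (prefix_replicate_iff.2 (by
      have := lt n
      have := Nat.le_mul_of_pos_right ((U n).length + 2) (Nat.two_pow_pos s)
      simp; omega)).isInfix
  refine (fac _).2 ⟨n + 1, this.trans ?_⟩
  have e := Ba ((U n).length + 2) (9 - s + 1) s 0
  rw [show s.1 + (9 - s + 1) = 10 by omega, zero_add, B.eq_2 _ s, show c s = s by simp [c]] at e
  rw [U, e]
  exact infix_append_of_infix_right (infix_append_of_infix_left
    (infix_append_of_infix_right (prefix_append _ _).isInfix))

theorem Pge (n : ℕ) : 10 ≤ P u (n + 1) := by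
  have i : Function.Injective fun s : Fin 10 => replicate (n + 1) s := fun a b e => by
    simpa using e
  have := Set.ncard_le_ncard (s := Set.range fun s : Fin 10 => replicate (n + 1) s)
    (t := {w ∈ Fac u | w.length = n + 1 ∧ w.reverse = w})
    (by rintro _ ⟨s, rfl⟩; exact ⟨rep _ s, by simp, reverse_replicate⟩)
    ((finite_length_eq _ (n + 1)).subset fun w hw => hw.2.1)
  rw [Set.ncard_range_of_injective i] at this
  simpa [P] using this

theorem zero : C u 0 = 1 ∧ P u 0 = 1 := by
  have := rep 0 0
  constructor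
  · rw [C, show {w ∈ Fac u | w.length = 0} = {[]} by ext w; simp; rintro rfl; exact this]; simp
  · rw [P, show {w ∈ Fac u | w.length = 0 ∧ w.reverse = w} = {[]} by
      ext w
      exact ⟨fun h => length_eq_zero_iff.1 h.2.1, by rintro rfl; exact ⟨this, rfl, rfl⟩⟩]; simp

theorem sum (N : ℕ) : ∑ n ∈ Finset.range (N + 1), T u n ≤ C u (N + 1) - 18 * N - 10 := by
  induction N with
  | zero => have := Pge 0; have := zero; simp [T] at *; omega
  | succ N ih =>
    have := Pge N
    have := Pge (N + 1)
    rw [Finset.sum_range_succ, T]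
    omega

theorem result : ∃ u : ℕ → Fin 10, (∀ i n m, ∃ j ≥ m, blk u j n = blk u i n) ∧
    {w ∈ Fac u | w.reverse = w}.Infinite ∧ (∃ w ∈ Fac u, w.reverse ∉ Fac u) ∧
    0 ≤ ⨆ n, ((D (blk u 0 n) : ℝ) : EReal) ∧
    Tendsto (fun N => ∑ n ∈ Finset.range N, T u n) atTop atBot := by
  refine ⟨u, fun i n m => ?_, Set.infinite_of_injective_forall_mem
    (f := fun n => replicate n (0 : Fin 10)) (fun a b e => by simpa using congrArg length e)
    fun n => ⟨rep n 0, reverse_replicate⟩, ⟨[0, 1], (fac _).2 ⟨1, 
      [0], (U 1).drop 3, by decide +kernel⟩, fun h => ?_⟩, le_iSup_of_le 0 ?_, ?_⟩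
  · have := lt (i + n + m)
    have := Bl ((U (i + n + m)).length + 2) 10 0
    refine ⟨1024 * (U (i + n + m)).length + 2046 + i, by omega, ?_⟩
    rw [be (i + n + m) i n (by omega), be (i + n + m + 1) _ n (by rw [len]; omega), ← drop_drop, U,
      ← append_assoc, drop_left' (by simp; omega)]
  · obtain ⟨j, hj⟩ := (fac _).1 h
    exact absurd (win 0 [1, 0] (by decide) j j.zero_le (hj.trans ⟨_, _, rfl⟩)) (by unfold Two; decide)
  · have : {v : List (Fin 10) | v <:+: [] ∧ v.reverse = v} = {[]} := by ext; simp +contextual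
    simp [D, blk, -infix_nil, this]
  · refine tendsto_atBot.2 fun b => eventually_atTop.2 ⟨b.natAbs + 20, fun N hN => ?_⟩
    obtain ⟨N, rfl⟩ : ∃ k, N = k + 1 := ⟨N - 1, by omega⟩
    have := sum N
    have := Cle (N + 1) (by omega)
    omega

end Pool.Agent.Results.MP_4402c4_co.Defect
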